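import Mathlib

/-! Composite valuation rings (helper24, for project RB of helper275). -/

set_option autoImplicit false

namespace Pool.Agent.Run7.h24.RB

open IsLocalRing

theorem val_lt_one_iff' {F : Type} [Field F] (V : ValuationSubring F) (x : F) :
    V.valuation x < 1 ↔ x = 0 ∨ x⁻¹ ∉ V := by
  by_cases hx : x = 0
  · subst hx
    simp
  · rw [← V.valuation_le_one_iff x⁻¹, map_inv₀, not_le]
    have h0 : 0 < V.valuation x := by
      rw [zero_lt_iff]
      exact (Valuation.ne_zero_iff _).2 hx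
    rw [one_lt_inv₀ h0]
    simp [hx]

/-- the composite of `W` and `R` along `ρ` -/
theorem comp {F L : Type} [Field F] [Field L] (W : ValuationSubring F) (ρ : W →+* L)
    (hρ : ∀ w : W, W.valuation (w : F) < 1 → ρ w = 0) (R : ValuationSubring L) :
    ∃ V : ValuationSubring F, V.toSubring ≤ W.toSubring ∧
      (∀ w : W, (w : F) ∈ V ↔ ρ w ∈ R) ∧
      (∀ w : W, V.valuation (w : F) < 1 ↔ R.valuation (ρ w) < 1) := by
  have hinv : ∀ (x : F) (h : x ∈ W) (h' : x⁻¹ ∈ W), x ≠ 0 → ρ ⟨x, h⟩ * ρ ⟨x⁻¹, h'⟩ = 1 := by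
    intro x h h' hx
    rw [← map_mul, ← map_one ρ]
    congr 1
    exact Subtype.ext (mul_inv_cancel₀ hx)
  let V : ValuationSubring F :=
    { carrier := {x | ∃ h : x ∈ W, ρ ⟨x, h⟩ ∈ R}
      mul_mem' := by
        rintro a b ⟨ha, ha'⟩ ⟨hb, hb'⟩
        refine ⟨W.mul_mem a b ha hb, ?_⟩
        have h : ρ ⟨a * b, W.mul_mem a b ha hb⟩ = ρ ⟨a, ha⟩ * ρ ⟨b, hb⟩ := by
          rw [← map_mul]
          rfl
        rw [h]
        exact R.mul_mem _ _ ha' hb'
      one_mem' := ⟨W.one_mem, by
        have h : ρ ⟨1, W.one_mem⟩ = 1 := map_one ρ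
        rw [h]
        exact R.one_mem⟩
      add_mem' := by
        rintro a b ⟨ha, ha'⟩ ⟨hb, hb'⟩
        refine ⟨W.add_mem a b ha hb, ?_⟩
        have h : ρ ⟨a + b, W.add_mem a b ha hb⟩ = ρ ⟨a, ha⟩ + ρ ⟨b, hb⟩ := by
          rw [← map_add]
          rfl
        rw [h]
        exact R.add_mem _ _ ha' hb'
      zero_mem' := ⟨W.zero_mem, by
        have h : ρ ⟨0, W.zero_mem⟩ = 0 := map_zero ρ
        rw [h]
        exact R.zero_mem⟩
      neg_mem' := by
        rintro a ⟨ha, ha'⟩
        refine ⟨W.neg_mem a ha, ?_⟩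
        have h : ρ ⟨-a, W.neg_mem a ha⟩ = - ρ ⟨a, ha⟩ := by
          rw [← map_neg]
          rfl
        rw [h]
        exact R.neg_mem _ ha'
      mem_or_inv_mem' := by
        intro x
        by_cases hx : x ∈ W
        · by_cases hxi : W.valuation x < 1
          · left
            refine ⟨hx, ?_⟩
            rw [hρ ⟨x, hx⟩ hxi]
            exact R.zero_mem
          · rw [val_lt_one_iff'] at hxi
            push Not at hxi
            have h1 := hinv x hx hxi.2 hxi.1
            rcases R.mem_or_inv_mem (ρ ⟨x, hx⟩) with h | h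
            · left
              exact ⟨hx, h⟩
            · right
              refine ⟨hxi.2, ?_⟩
              rw [inv_eq_of_mul_eq_one_right h1] at h
              exact h
        · have hx' : x⁻¹ ∈ W := (W.mem_or_inv_mem x).resolve_left hx
          right
          refine ⟨hx', ?_⟩
          rw [hρ ⟨x⁻¹, hx'⟩ ((val_lt_one_iff' W _).2 (Or.inr (by
            change (x⁻¹)⁻¹ ∉ W
            rwa [inv_inv])))]
          exact R.zero_mem }
  have hV : ∀ x : F, x ∈ V ↔ ∃ h : x ∈ W, ρ ⟨x, h⟩ ∈ R := fun x => Iff.rfl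
  refine ⟨V, ?_, ?_, ?_⟩
  · rintro x ⟨h, _⟩
    exact h
  · intro w
    rw [hV]
    exact ⟨fun ⟨_, h⟩ => h, fun h => ⟨w.2, h⟩⟩
  · intro w
    by_cases hu : W.valuation (w : F) < 1
    · have h1 := hρ w hu
      rw [h1, map_zero, val_lt_one_iff']
      rw [val_lt_one_iff'] at hu
      refine ⟨fun _ => zero_lt_one, fun _ => ?_⟩
      rcases hu with h | h
      · exact Or.inl h
      · exact Or.inr (fun h2 => h h2.1)
    · rw [val_lt_one_iff'] at hu
      push Not at hu
      have h1 := hinv w w.2 hu.2 hu.1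
      have h2 : ρ w ≠ 0 := by
        intro h0
        have : ρ ⟨(w : F), w.2⟩ = 0 := h0
        rw [this, zero_mul] at h1
        exact zero_ne_one h1
      rw [val_lt_one_iff', val_lt_one_iff']
      simp only [hu.1, h2, false_or]
      rw [not_iff_not, hV]
      have h3 : (ρ w)⁻¹ = ρ ⟨(w : F)⁻¹, hu.2⟩ := inv_eq_of_mul_eq_one_right h1
      rw [h3]
      exact ⟨fun ⟨_, h⟩ => h, fun h => ⟨hu.2, h⟩⟩

/-- a homomorphism from `A`, whose kernel is the centre of `W` and such that the residue field of `W` is the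
fraction field of the image of `A`, extends to `W` -/
theorem exists_rho {F L : Type} [Field F] [Field L] (A : Subring F) (W : ValuationSubring F)
    (π : A →+* L) (hAW : A ≤ W.toSubring)
    (hπ : ∀ a : A, W.valuation (a : F) < 1 ↔ π a = 0)
    (hres : ∀ w ∈ W, ∃ a ∈ A, ∃ b ∈ A, ¬ W.valuation b < 1 ∧ W.valuation (w - a / b) < 1) :
    ∃ ρ : W →+* L, (∀ (a : F) (ha : a ∈ A), ρ ⟨a, hAW ha⟩ = π ⟨a, ha⟩) ∧
      ∀ w : W, ρ w = 0 ↔ W.valuation (w : F) < 1 := by
  classical
  let inc : A →+* W := Subring.inclusion hAW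
  let θ : A →+* ResidueField W := (residue W).comp inc
  have hθ : ∀ a : A, θ a = 0 ↔ π a = 0 := by
    intro a
    rw [← hπ a]
    change residue W (inc a) = 0 ↔ _
    rw [residue_eq_zero_iff, ValuationSubring.valuation_lt_one_iff]
    rfl
  have hker : RingHom.ker θ ≤ RingHom.ker π := fun a ha => (hθ a).1 ha
  have hsurj : Function.Surjective θ.rangeRestrict := θ.rangeRestrict_surjective
  have hker' : RingHom.ker θ.rangeRestrict ≤ RingHom.ker π := by
    rw [RingHom.ker_rangeRestrict]
    exact hker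
  let g : θ.range →+* L := θ.rangeRestrict.liftOfSurjective hsurj ⟨π, hker'⟩
  have hg : ∀ a : A, g (θ.rangeRestrict a) = π a := fun a =>
    RingHom.liftOfRightInverse_comp_apply _ _ _ ⟨π, hker'⟩ a
  have hginj : Function.Injective g := by
    rw [injective_iff_map_eq_zero]
    intro x hx
    obtain ⟨a, rfl⟩ := hsurj x
    rw [hg] at hx
    have := (hθ a).2 hx
    exact Subtype.ext this
  have hfaith : FaithfulSMul θ.range (ResidueField W) := by
    rw [faithfulSMul_iff_algebraMap_injective]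
    exact Subtype.val_injective
  have hfrac : IsFractionRing θ.range (ResidueField W) := by
    apply IsFractionRing.of_field
    intro z
    obtain ⟨w, rfl⟩ := residue_surjective z
    obtain ⟨a, ha, b, hb, hb1, hw⟩ := hres w w.2
    refine ⟨θ.rangeRestrict ⟨a, ha⟩, θ.rangeRestrict ⟨b, hb⟩, ?_⟩
    change residue W w = θ ⟨a, ha⟩ / θ ⟨b, hb⟩
    have hb0 : θ ⟨b, hb⟩ ≠ 0 := by
      intro h0
      rw [hθ, ← hπ] at h0
      exact hb1 h0
    have hbne : b ≠ 0 := by
      rintro rfl
      exact hb1 (by rw [map_zero]; exact zero_lt_one)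
    rw [eq_div_iff hb0]
    change residue W w * residue W (inc ⟨b, hb⟩) = residue W (inc ⟨a, ha⟩)
    rw [← map_mul, ← sub_eq_zero, ← map_sub, residue_eq_zero_iff,
      ValuationSubring.valuation_lt_one_iff]
    have h1 : ((w * inc ⟨b, hb⟩ - inc ⟨a, ha⟩ : W) : F) = ((w : F) - a / b) * b := by
      change (w : F) * b - a = _
      field_simp
    rw [h1, map_mul]
    have h2 : W.valuation b ≤ 1 := (W.valuation_le_one_iff b).2 (hAW hb)
    calc W.valuation ((w : F) - a / b) * W.valuation b ≤ W.valuation ((w : F) - a / b) * 1 :=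
          mul_le_mul_right h2 _
      _ < 1 := by rw [mul_one]; exact hw
  let lam : ResidueField W →+* L := IsFractionRing.lift hginj
  have hlam : ∀ a : A, lam (θ a) = π a := by
    intro a
    rw [← hg a]
    exact IsFractionRing.lift_algebraMap hginj (θ.rangeRestrict a)
  refine ⟨lam.comp (residue W), ?_, ?_⟩
  · intro a ha
    exact hlam ⟨a, ha⟩
  · intro w
    rw [RingHom.comp_apply, map_eq_zero, residue_eq_zero_iff,
      ValuationSubring.valuation_lt_one_iff]

end Pool.Agent.Run7.h24.RB
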