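import Pool.Agent.H379R3.Reg
import Pool.Agent.Run7.h24.RB.Comp

/-! Regular local rings are dominated by valuation rings with the same residue field (helper24, project RB
of helper275). -/

set_option autoImplicit false

namespace Pool.Agent.Run7.h24.RB

open IsLocalRing

/-- the valuation ring of a prime element of a noetherian domain -/
theorem dvr {F : Type} [Field F] (A : Subring F) [IsNoetherianRing A]
    (hfr : ∀ z : F, ∃ a ∈ A, ∃ b ∈ A, b ≠ 0 ∧ z = a / b) (t : A) (ht : Prime t) :
    ∃ W : ValuationSubring F, A ≤ W.toSubring ∧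
      (∀ a : A, W.valuation (a : F) < 1 ↔ t ∣ a) ∧
      ∀ w ∈ W, ∃ a b : A, ¬ t ∣ b ∧ w = a / b := by
  have hcoe : ∀ a : A, (a : F) = 0 ↔ a = 0 := fun a => by
    constructor
    · intro h
      exact Subtype.ext h
    · rintro rfl
      rfl
  have ht0 : (t : F) ≠ 0 := fun h => ht.ne_zero ((hcoe t).1 h)
  let W : ValuationSubring F :=
    { carrier := {z | ∃ a b : A, ¬ t ∣ b ∧ z = a / b}
      mul_mem' := by
        rintro x y ⟨a, b, hb, rfl⟩ ⟨c, d, hd, rfl⟩
        refine ⟨a * c, b * d, fun h => ?_, ?_⟩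
        · rcases ht.dvd_or_dvd h with h | h
          · exact hb h
          · exact hd h
        · push_cast
          rw [div_mul_div_comm]
      one_mem' := ⟨1, 1, fun h => ht.not_isUnit (isUnit_of_dvd_one h), by simp⟩
      add_mem' := by
        rintro x y ⟨a, b, hb, rfl⟩ ⟨c, d, hd, rfl⟩
        have hb0 : (b : F) ≠ 0 := fun h => hb (((hcoe b).1 h) ▸ dvd_zero t)
        have hd0 : (d : F) ≠ 0 := fun h => hd (((hcoe d).1 h) ▸ dvd_zero t)
        refine ⟨a * d + b * c, b * d, fun h => ?_, ?_⟩
        · rcases ht.dvd_or_dvd h with h | h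
          · exact hb h
          · exact hd h
        · push_cast
          rw [div_add_div _ _ hb0 hd0]
      zero_mem' := ⟨0, 1, fun h => ht.not_isUnit (isUnit_of_dvd_one h), by simp⟩
      neg_mem' := by
        rintro x ⟨a, b, hb, rfl⟩
        refine ⟨-a, b, hb, ?_⟩
        push_cast
        rw [neg_div]
      mem_or_inv_mem' := by
        intro z
        obtain ⟨a, ha, b, hb, hb0, rfl⟩ := hfr z
        by_cases ha0 : a = 0
        · left
          subst ha0
          exact ⟨0, 1, fun h => ht.not_isUnit (isUnit_of_dvd_one h), by simp⟩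
        have ha0' : (⟨a, ha⟩ : A) ≠ 0 := fun h => ha0 ((hcoe _).2 h)
        have hb0' : (⟨b, hb⟩ : A) ≠ 0 := fun h => hb0 ((hcoe _).2 h)
        obtain ⟨n, a', ha', hna⟩ := WfDvdMonoid.max_power_factor' ha0' ht.not_isUnit
        obtain ⟨m, b', hb', hmb⟩ := WfDvdMonoid.max_power_factor' hb0' ht.not_isUnit
        have ea : a = (t : F) ^ n * a' := by
          have := congrArg Subtype.val hna
          simp at this
          exact this
        have eb : b = (t : F) ^ m * b' := by
          have := congrArg Subtype.val hmb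
          simp at this
          exact this
        have ha'0 : (a' : F) ≠ 0 := fun h => ha' (((hcoe a').1 h) ▸ dvd_zero t)
        have hb'0 : (b' : F) ≠ 0 := fun h => hb' (((hcoe b').1 h) ▸ dvd_zero t)
        rcases le_total m n with h | h
        · left
          obtain ⟨k, rfl⟩ := Nat.exists_eq_add_of_le h
          refine ⟨t ^ k * a', b', hb', ?_⟩
          rw [ea, eb]
          push_cast
          rw [pow_add]
          field_simp
        · right
          obtain ⟨k, rfl⟩ := Nat.exists_eq_add_of_le h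
          refine ⟨t ^ k * b', a', ha', ?_⟩
          rw [ea, eb]
          push_cast
          rw [pow_add]
          field_simp }
  have hW : ∀ z : F, z ∈ W ↔ ∃ a b : A, ¬ t ∣ b ∧ z = a / b := fun z => Iff.rfl
  refine ⟨W, ?_, ?_, fun w hw => (hW w).1 hw⟩
  · intro a ha
    exact ⟨⟨a, ha⟩, 1, fun h => ht.not_isUnit (isUnit_of_dvd_one h), by simp⟩
  · intro a
    rw [val_lt_one_iff', hW]
    constructor
    · rintro (h | h)
      · rw [(hcoe a).1 h]
        exact dvd_zero t
      · by_contra hta
        exact h ⟨1, a, hta, by simp⟩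
    · intro hta
      by_cases ha0 : (a : F) = 0
      · exact Or.inl ha0
      · right
        rintro ⟨c, b, hb, he⟩
        have hb0 : (b : F) ≠ 0 := fun h => hb (((hcoe b).1 h) ▸ dvd_zero t)
        have h1 : (b : F) = a * c := by
          field_simp at he
          rw [he]
        have h2 : b = a * c := Subtype.ext (by rw [h1]; rfl)
        exact hb (h2 ▸ (dvd_mul_of_dvd_left hta c))

theorem cmp_aux (d : ℕ) : ∀ (F : Type) [Field F] (A : Subring F) [IsRegularLocalRing A],
    ringKrullDim A = (d : ℕ) →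
    (∀ z : F, ∃ a ∈ A, ∃ b ∈ A, b ≠ 0 ∧ z = a / b) →
    ∃ W : ValuationSubring F, A ≤ W.toSubring ∧
      (∀ a : A, W.valuation (a : F) < 1 ↔ a ∈ maximalIdeal A) ∧
      ∀ w ∈ W, ∃ a ∈ A, W.valuation (w - a) < 1 := by
  induction d with
  | zero =>
    intro F _ A _ hd hfr
    have h1 := Pool.Agent.H379R3.dim_zero_maximalIdeal_eq_bot (B := A) (by exact_mod_cast hd)
    have hinv : ∀ b ∈ A, b ≠ 0 → b⁻¹ ∈ A := by
      intro b hb hb0
      have h2 : IsUnit (⟨b, hb⟩ : A) := by
        by_contra hu
        have h3 : (⟨b, hb⟩ : A) ∈ maximalIdeal A := hu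
        rw [h1, Ideal.mem_bot] at h3
        exact hb0 (congrArg Subtype.val h3)
      obtain ⟨c, hc⟩ := isUnit_iff_exists_inv.1 h2
      have h4 : b * (c : F) = 1 := congrArg Subtype.val hc
      have h5 : b⁻¹ = c := inv_eq_of_mul_eq_one_right h4
      rw [h5]
      exact c.2
    have htop : ∀ z : F, z ∈ A := by
      intro z
      obtain ⟨a, ha, b, hb, hb0, rfl⟩ := hfr z
      rw [div_eq_mul_inv]
      exact A.mul_mem ha (hinv b hb hb0)
    refine ⟨⊤, fun _ _ => trivial, ?_, ?_⟩
    · intro a
      rw [val_lt_one_iff', h1, Ideal.mem_bot]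
      constructor
      · rintro (h | h)
        · exact Subtype.ext h
        · exact absurd trivial h
      · rintro rfl
        exact Or.inl rfl
    · intro w _
      exact ⟨w, htop w, by rw [sub_self, map_zero]; exact zero_lt_one⟩
  | succ d ih =>
    intro F _ A _ hd hfr
    -- a regular parameter
    obtain ⟨t, ht, ht2⟩ : ∃ t ∈ maximalIdeal A, t ∉ maximalIdeal A ^ 2 := by
      by_contra hcon
      push Not at hcon
      have h1 : maximalIdeal A ≤ maximalIdeal A * maximalIdeal A := by
        intro x hx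
        rw [← pow_two]
        exact hcon x hx
      have h2 : maximalIdeal A = ⊥ := by
        apply Submodule.eq_bot_of_le_smul_of_le_jacobson_bot (maximalIdeal A) (maximalIdeal A)
          (maximalIdeal A).fg_of_isNoetherianRing
        · exact h1
        · exact IsLocalRing.maximalIdeal_le_jacobson _
      have h3 : IsField A := isField_iff_maximalIdeal_eq.2 h2
      have h4 := ringKrullDim_eq_zero_of_isField h3
      rw [h4] at hd
      have : (0 : ℕ) = d + 1 := by exact_mod_cast hd
      omega
    obtain ⟨hreg, hdim⟩ := Pool.Agent.H379R3.regular_quotient t ht ht2 d hd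
    have hdom : IsDomain (A ⧸ Ideal.span {t}) := Pool.Agent.H379R3.isDomain _
    have htprime : Prime t := by
      have ht0 : t ≠ 0 := fun h => ht2 (h ▸ Ideal.zero_mem _)
      rw [← Ideal.span_singleton_prime ht0]
      exact (Ideal.Quotient.isDomain_iff_prime _).1 hdom
    obtain ⟨W₁, hW1, hW2, hW3⟩ := dvr A hfr t htprime
    -- the residue field
    let F' : Type := FractionRing (A ⧸ Ideal.span {t})
    let emb : (A ⧸ Ideal.span {t}) →+* F' := algebraMap _ _
    have hemb : Function.Injective emb := IsFractionRing.injective _ _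
    let π : A →+* F' := emb.comp (Ideal.Quotient.mk _)
    have hπ0 : ∀ a : A, π a = 0 ↔ t ∣ a := by
      intro a
      change emb (Ideal.Quotient.mk _ a) = 0 ↔ _
      rw [map_eq_zero_iff emb hemb, Ideal.Quotient.eq_zero_iff_mem, Ideal.mem_span_singleton]
    let A' : Subring F' := emb.range
    let e : (A ⧸ Ideal.span {t}) ≃+* A' :=
      RingEquiv.ofBijective emb.rangeRestrict
        ⟨fun x y h => hemb (congrArg Subtype.val h), emb.rangeRestrict_surjective⟩
    have hreg' : IsRegularLocalRing A' := IsRegularLocalRing.of_ringEquiv e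
    have hdim' : ringKrullDim A' = (d : ℕ) := by
      rw [← ringKrullDim_eq_of_ringEquiv e]
      exact hdim
    have hfr' : ∀ z : F', ∃ a ∈ A', ∃ b ∈ A', b ≠ 0 ∧ z = a / b := by
      intro z
      obtain ⟨x, y, hy, rfl⟩ := IsFractionRing.div_surjective (A := A ⧸ Ideal.span {t}) z
      refine ⟨emb x, ⟨x, rfl⟩, emb y, ⟨y, rfl⟩, ?_, rfl⟩
      rw [Ne, map_eq_zero_iff emb hemb]
      exact nonZeroDivisors.ne_zero hy
    obtain ⟨W', hA', hmax', hres'⟩ := ih F' A' hdim' hfr'
    obtain ⟨ρ, hρ1, hρ2⟩ := exists_rho A W₁ π hW1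
      (fun a => by rw [hW2, hπ0]) (by
        intro w hw
        obtain ⟨a, b, hb, rfl⟩ := hW3 w hw
        refine ⟨a, a.2, b, b.2, ?_, ?_⟩
        · rw [hW2]
          exact hb
        · rw [sub_self, map_zero]
          exact zero_lt_one)
    obtain ⟨V, hV1, hV2, hV3⟩ := comp W₁ ρ (fun w hw => (hρ2 w).2 hw) W'
    have hπA' : ∀ a : A, π a ∈ A' := fun a => ⟨Ideal.Quotient.mk _ a, rfl⟩
    refine ⟨V, ?_, ?_, ?_⟩
    · intro a ha
      change a ∈ V
      rw [show a = ((⟨a, hW1 ha⟩ : W₁) : F) from rfl, hV2, hρ1 a ha]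
      exact hA' (hπA' _)
    · intro a
      rw [hV3 ⟨(a : F), hW1 a.2⟩, hρ1 a a.2]
      have h1 := hmax' ⟨π a, hπA' a⟩
      change W'.valuation (π a) < 1 ↔ _
      have h1' : W'.valuation (π a) < 1 ↔ (⟨π a, hπA' a⟩ : A') ∈ maximalIdeal A' := h1
      rw [h1', mem_maximalIdeal, mem_maximalIdeal, mem_nonunits_iff, mem_nonunits_iff, not_iff_not]
      have h2 : (⟨π a, hπA' a⟩ : A') = e (Ideal.Quotient.mk _ a) := rfl
      rw [h2, MulEquiv.isUnit_map e]
      constructor
      · intro hu
        by_contra ha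
        have h3 : a ∈ maximalIdeal A := ha
        have hle : Ideal.span {t} ≤ maximalIdeal A := by
          rw [Ideal.span_singleton_le_iff_mem]
          exact ht
        obtain ⟨c, hc⟩ := isUnit_iff_exists_inv.1 hu
        obtain ⟨c', rfl⟩ := Ideal.Quotient.mk_surjective c
        rw [← map_mul, ← map_one (Ideal.Quotient.mk (Ideal.span {t})), Ideal.Quotient.eq] at hc
        have h4 := hle hc
        have h5 : a * c' ∈ maximalIdeal A := Ideal.mul_mem_right _ _ h3
        have h6 : (1 : A) ∈ maximalIdeal A := by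
          have := Ideal.sub_mem _ h5 h4
          simp at this
        exact (maximalIdeal.isMaximal A).ne_top ((Ideal.eq_top_iff_one _).2 h6)
      · intro ha
        exact ha.map _
    · intro w hw
      have hwW : w ∈ W₁ := hV1 hw
      have h1 : ρ ⟨w, hwW⟩ ∈ W' := (hV2 ⟨w, hwW⟩).1 hw
      obtain ⟨a', ha', h2⟩ := hres' _ h1
      obtain ⟨x, rfl⟩ := ha'
      obtain ⟨a, rfl⟩ := Ideal.Quotient.mk_surjective x
      refine ⟨a, a.2, ?_⟩
      have h3 : w - a = (((⟨w, hwW⟩ : W₁) - ⟨(a : F), hW1 a.2⟩ : W₁) : F) := rfl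
      rw [h3, hV3, map_sub, hρ1 a a.2]
      exact h2

end Pool.Agent.Run7.h24.RB
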