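import Pool.Agent.Run7.h275.RB5
import Pool.Agent.Run7.h24.RB.Dvr

/-! Project RB (helper275), piece CMP1 (helper24). -/

set_option autoImplicit false

namespace Pool.Agent.Run7.h24.RB

open IsLocalRing Pool.Agent.Run7.h275.RB

theorem CMP1 : S_CMP1 := by
  intro F _ A _ hfr
  obtain ⟨d, hd⟩ := Pool.Agent.H379R3.exists_dim_eq (B := A)
  exact cmp_aux d F A hd hfr

end Pool.Agent.Run7.h24.RB
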