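import Pool.Agent.Run7.h275.RB5
import Pool.Agent.Run7.h24.RB.Comp

/-! Project RB (helper275), pieces CMP2, J0T (helper24). -/

set_option autoImplicit false

namespace Pool.Agent.Run7.h24.RB

open IsLocalRing Pool.Agent.Run7.h275.RB

theorem J0T : S_J0T := by
  intro h O _ hO B _ _ _ hB
  have : Algebra.FiniteType ℤ B := Algebra.FiniteType.trans hO hB
  exact h B this

theorem CMP2 : S_CMP2 := by
  intro F L _ _ A W π R hAW hπ hres
  classical
  obtain ⟨ρ, hρ1, hρ2⟩ := exists_rho A W π hAW hπ (by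
    intro w hw
    obtain ⟨a, ha, h⟩ := hres w hw
    refine ⟨a, ha, 1, A.one_mem, ?_, ?_⟩
    · rw [map_one]
      exact lt_irrefl _
    · rw [div_one]
      exact h)
  obtain ⟨V, hV1, hV2, hV3⟩ := comp W ρ (fun w hw => (hρ2 w).2 hw) R
  refine ⟨V, hV1, ?_, ?_, ?_⟩
  · intro a
    rw [hV2 ⟨(a : F), hAW a.2⟩, hρ1 a a.2]
  · intro a
    rw [hV3 ⟨(a : F), hAW a.2⟩, hρ1 a a.2]
  · intro a q hq z hz
    -- the values
    have hπa : π a ≠ 0 := by
      intro h0
      have h1 := hq (fun _ => 0) (fun i _ => by rw [map_zero]; exact zero_lt_one)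
      rw [h0, map_zero] at h1
      exact not_lt_zero h1
    have hWa : ¬ W.valuation (a : F) < 1 := fun h => hπa ((hπ a).1 h)
    have ha0 : (a : F) ≠ 0 := by
      intro h0
      exact hWa (by rw [h0, map_zero]; exact zero_lt_one)
    have hai : (a : F)⁻¹ ∈ W := by
      rw [val_lt_one_iff'] at hWa
      push Not at hWa
      exact hWa.2
    have hzW : ∀ i < q + 1, z i ∈ W := by
      intro i hi
      have h1 : z i ∈ V := (V.valuation_le_one_iff _).1 (hz i hi).le
      exact hV1 h1
    let z' : ℕ → W := fun i => if h : z i ∈ W then ⟨z i, h⟩ else 0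
    have hz' : ∀ i < q + 1, ((z' i : W) : F) = z i := by
      intro i hi
      simp only [z', dif_pos (hzW i hi)]
    have hprod : ((∏ i ∈ Finset.range (q + 1), z' i : W) : F) = ∏ i ∈ Finset.range (q + 1), z i := by
      have h1 : ((∏ i ∈ Finset.range (q + 1), z' i : W) : F) =
          ∏ i ∈ Finset.range (q + 1), ((z' i : W) : F) := map_prod W.subtype _ _
      rw [h1]
      exact Finset.prod_congr rfl (fun i hi => hz' i (Finset.mem_range.1 hi))
    let y : W := (∏ i ∈ Finset.range (q + 1), z' i) * ⟨(a : F)⁻¹, hai⟩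
    have hy : (y : F) = (∏ i ∈ Finset.range (q + 1), z i) * (a : F)⁻¹ := by
      change ((∏ i ∈ Finset.range (q + 1), z' i : W) : F) * (a : F)⁻¹ = _
      rw [hprod]
    have hρy : ρ y = (∏ i ∈ Finset.range (q + 1), ρ (z' i)) * (π a)⁻¹ := by
      have h1 : ρ y = ρ (∏ i ∈ Finset.range (q + 1), z' i) * ρ ⟨(a : F)⁻¹, hai⟩ := map_mul ρ _ _
      rw [h1, map_prod]
      congr 1
      rw [eq_comm]
      apply inv_eq_of_mul_eq_one_right
      have h2 : π a = ρ ⟨(a : F), hAW a.2⟩ := (hρ1 a a.2).symm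
      rw [h2, ← map_mul, ← map_one ρ]
      congr 1
      exact Subtype.ext (mul_inv_cancel₀ ha0)
    have hR : R.valuation (∏ i ∈ Finset.range (q + 1), ρ (z' i)) < R.valuation (π a) := by
      apply hq
      intro i hi
      rw [← hV3 (z' i), hz' i hi]
      exact hz i hi
    have hRy : R.valuation (ρ y) < 1 := by
      rw [hρy, map_mul, map_inv₀, ← div_eq_mul_inv, div_lt_one₀]
      · exact hR
      · rw [zero_lt_iff]
        exact (Valuation.ne_zero_iff _).2 hπa
    rw [← hV3, hy, map_mul, map_inv₀, ← div_eq_mul_inv, div_lt_one₀] at hRy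
    · exact hRy
    · rw [zero_lt_iff]
      exact (Valuation.ne_zero_iff _).2 ha0

end Pool.Agent.Run7.h24.RB
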